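import Mathlib
import Pool.Agent.Helper56_TD.Codes

/-!
A perfect tree in Cantor space whose branches are pairwise Turing incomparable, with prescribed
parities of the lengths of the splitting nodes.
-/

set_option autoImplicit false

namespace Pool.Agent.Helper56TD

@[simp] theorem pre_length (x : ℕ → Bool) (n : ℕ) : (pre x n).length = n := by simp [pre]

theorem pre_succ (x : ℕ → Bool) (n : ℕ) : pre x (n + 1) = pre x n ++ [x n] := by
  simp [pre, List.range_succ]

theorem pre_prefix (x : ℕ → Bool) {m n : ℕ} (h : m ≤ n) : pre x m <+: pre x n := by
  induction h with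
  | refl => exact List.prefix_refl _
  | step _ ih => rw [Nat.succ_eq_add_one, pre_succ]; exact ih.trans (List.prefix_append _ _)

theorem pre_eq_iff (x y : ℕ → Bool) (n : ℕ) : pre x n = pre y n ↔ ∀ i < n, x i = y i := by
  simp [pre]

/-- `x` extends the finite string `s` -/
def Ext (s : List Bool) (x : ℕ → Bool) : Prop := pre x s.length = s

theorem Ext.pre (x : ℕ → Bool) (n : ℕ) : Ext (pre x n) x := by simp [Ext]

theorem Ext.mono {s s' : List Bool} {x : ℕ → Bool} (h : s <+: s') (hx : Ext s' x) : Ext s x := by
  unfold Ext at *
  have h1 : Helper56TD.pre x s.length <+: s' := by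
    rw [← hx]; exact pre_prefix x h.length_le
  exact (List.prefix_of_prefix_length_le h1 h (by simp)).eq_of_length (by simp)

theorem exists_ext (s : List Bool) : ∃ x, Ext s x := by
  refine ⟨fun i => s.getD i false, ?_⟩
  unfold Ext Helper56TD.pre
  apply List.ext_getElem
  · simp
  · intro i h1 h2
    simp [List.getElem?_eq_getElem h2]

/-- an enumeration of the codes -/
theorem exists_enum : ∃ f : ℕ → OCode, Function.Surjective f :=
  haveI : Nonempty OCode := ⟨OCode.zero⟩
  exists_surjective_nat OCode

noncomputable def code : ℕ → OCode := exists_enum.choose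

theorem code_surj : Function.Surjective code := exists_enum.choose_spec

/-- below `s` and `t` the `k`-th functional does not map the first real to the second -/
def Good (k : ℕ) (s t : List Bool) : Prop :=
  ∀ x y, Ext s x → Ext t y → eval (chi x) (code k) ≠ chi y

theorem Good.mono {k : ℕ} {s s' t t' : List Bool} (hs : s <+: s') (ht : t <+: t')
    (h : Good k s t) : Good k s' t' :=
  fun x y hx hy => h x y (hx.mono hs) (hy.mono ht)

theorem good_ext (k : ℕ) (s t : List Bool) : ∃ s' t', s <+: s' ∧ t <+: t' ∧ Good k s' t' := by
  by_cases h : ∃ x v, Ext s x ∧ v ∈ eval (chi x) (code k) t.length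
  · obtain ⟨x, v, hx, hv⟩ := h
    obtain ⟨N, hN⟩ := use_principle x (code k) _ v hv
    refine ⟨pre x (max N s.length), t ++ [if v = 0 then true else false], ?_,
      List.prefix_append _ _, ?_⟩
    · have h1 := pre_prefix x (le_max_right N s.length)
      rw [hx] at h1
      exact h1
    · intro x' y hx' hy heq
      have h1 : ∀ i < N, x' i = x i := by
        intro i hi
        have := (pre_eq_iff x' x (max N s.length)).mp (by
          have := hx'
          unfold Ext at this
          rwa [pre_length] at this)
        exact this i (lt_of_lt_of_le hi (le_max_left _ _))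
      have h2 := hN x' h1
      rw [heq] at h2
      have h3 : v = (y t.length).toNat := by
        simpa [chi] using h2
      have h4 : y t.length = if v = 0 then true else false := by
        unfold Ext at hy
        rw [List.length_append, List.length_singleton, pre_succ] at hy
        have := List.append_inj_right' hy rfl
        simpa using this
      rw [h4] at h3
      by_cases hv0 : v = 0
      · rw [if_pos hv0, hv0] at h3; simp at h3
      · rw [if_neg hv0] at h3; simp at h3; exact hv0 h3
  · push Not at h
    refine ⟨s, t, List.prefix_refl _, List.prefix_refl _, ?_⟩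
    intro x y hx _ heq
    apply h x (y t.length).toNat hx
    rw [heq]
    exact Part.mem_some _

theorem tasks (L : List (ℕ × List Bool × List Bool)) (u : List Bool → List Bool) :
    ∃ u' : List Bool → List Bool, (∀ w, u w <+: u' w) ∧
      ∀ p ∈ L, p.2.1 ≠ p.2.2 → Good p.1 (u' p.2.1) (u' p.2.2) := by
  induction L with
  | nil => exact ⟨u, fun w => List.prefix_refl _, fun p hp => absurd hp (by simp)⟩
  | cons q L ih =>
    obtain ⟨u1, h1, h2⟩ := ih
    obtain ⟨k, w, w'⟩ := q
    obtain ⟨s', t', hs, ht, hg⟩ := good_ext k (u1 w) (u1 w')
    by_cases hww : w = w'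
    · refine ⟨u1, h1, ?_⟩
      intro p hp hne
      rcases List.mem_cons.mp hp with rfl | hp
      · exact absurd hww hne
      · exact h2 p hp hne
    · have hmono : ∀ v, u1 v <+: Function.update (Function.update u1 w s') w' t' v := by
        intro v
        by_cases hv' : v = w'
        · subst hv'; simpa using ht
        · rw [Function.update_of_ne hv']
          by_cases hv : v = w
          · subst hv; simpa using hs
          · rw [Function.update_of_ne hv]
      refine ⟨Function.update (Function.update u1 w s') w' t',
        fun v => (h1 v).trans (hmono v), ?_⟩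
      intro p hp hne
      rcases List.mem_cons.mp hp with rfl | hp
      · simp only [Function.update_self]
        rw [Function.update_of_ne hww, Function.update_self]
        exact hg
      · exact (h2 p hp hne).mono (hmono _) (hmono _)

theorem step_exists (n : ℕ) (u : List Bool → List Bool) :
    ∃ u' : List Bool → List Bool,
      (∀ w i, w.length = n → u w ++ [i] <+: u' (w ++ [i])) ∧
      (∀ w, w.length = n + 1 → (u' w).length % 2 = (n + 1 + 1) % 2) ∧
      (∀ k ≤ n, ∀ w w', w.length = n + 1 → w'.length = n + 1 → w ≠ w' →
        Good k (u' w) (u' w')) := by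
  classical
  have hfin : {l : List Bool | l.length = n + 1}.Finite := List.finite_length_eq Bool (n + 1)
  let W : List (List Bool) := hfin.toFinset.toList
  have hW : ∀ w, w ∈ W ↔ w.length = n + 1 := by
    intro w; simp [W]
  let L : List (ℕ × List Bool × List Bool) := (List.range (n + 1)) ×ˢ (W ×ˢ W)
  have hL : ∀ k w w', k ≤ n → w.length = n + 1 → w'.length = n + 1 → (k, w, w') ∈ L := by
    intro k w w' hk hw hw'
    simp only [L, List.mem_product, List.mem_range, hW]
    exact ⟨by omega, hw, hw'⟩
  obtain ⟨u1, h1, h2⟩ := tasks L fun w => u w.dropLast ++ [w.getLastD false]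
  refine ⟨fun w => if (u1 w).length % 2 = (n + 1 + 1) % 2 then u1 w else u1 w ++ [false],
    ?_, ?_, ?_⟩
  · intro w i _
    have h3 := h1 (w ++ [i])
    simp only [List.dropLast_concat] at h3
    have h4 : (w ++ [i]).getLastD false = i := by simp
    rw [h4] at h3
    refine h3.trans ?_
    beta_reduce
    split_ifs
    · exact List.prefix_refl _
    · exact List.prefix_append _ _
  · intro w _
    beta_reduce
    split_ifs with h
    · exact h
    · rw [List.length_append, List.length_singleton]
      omega
  · intro k hk w w' hw hw' hne
    have h3 := h2 (k, w, w') (hL k w w' hk hw hw') hne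
    refine h3.mono ?_ ?_
    · dsimp only
      split_ifs
      · exact List.prefix_refl _
      · exact List.prefix_append _ _
    · dsimp only
      split_ifs
      · exact List.prefix_refl _
      · exact List.prefix_append _ _

/-- the stages of the construction -/
noncomputable def U : ℕ → List Bool → List Bool
  | 0 => fun _ => [false]
  | n + 1 => (step_exists n (U n)).choose

/-- the splitting nodes -/
noncomputable def nd (w : List Bool) : List Bool := U w.length w

theorem nd_step (w : List Bool) (i : Bool) : nd w ++ [i] <+: nd (w ++ [i]) := by
  unfold nd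
  have h := (step_exists w.length (U w.length)).choose_spec.1 w i rfl
  have e : (w ++ [i]).length = w.length + 1 := by simp
  rw [e]
  exact h

theorem nd_parity (w : List Bool) : (nd w).length % 2 = (w.length + 1) % 2 := by
  unfold nd
  rcases hn : w.length with _ | n
  · simp [U]
  · exact (step_exists n (U n)).choose_spec.2.1 w hn

theorem nd_good (n k : ℕ) (hk : k ≤ n) (w w' : List Bool) (hw : w.length = n + 1)
    (hw' : w'.length = n + 1) (hne : w ≠ w') : Good k (nd w) (nd w') := by
  unfold nd
  rw [hw, hw']
  exact (step_exists n (U n)).choose_spec.2.2 k hk w w' hw hw' hne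

end Pool.Agent.Helper56TD
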