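import Mathlib
import Pool.Agent.Helper56_TD.Tree

/-!
Trees given by their splitting nodes, and the translation of strategies.
-/

set_option autoImplicit false

namespace Pool.Agent.Helper56TD

theorem list_compare : ∀ w w' : List Bool, w <+: w' ∨ w' <+: w ∨
    ∃ v a b, a ≠ b ∧ v ++ [a] <+: w ∧ v ++ [b] <+: w'
  | [], w' => Or.inl (List.nil_prefix)
  | w, [] => Or.inr (Or.inl (List.nil_prefix))
  | c :: w, c' :: w' => by
    by_cases h : c = c'
    · subst h
      rcases list_compare w w' with h | h | ⟨v, a, b, hab, h1, h2⟩
      · left; exact List.cons_prefix_cons.mpr ⟨rfl, h⟩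
      · right; left; exact List.cons_prefix_cons.mpr ⟨rfl, h⟩
      · right; right
        exact ⟨c :: v, a, b, hab, List.cons_prefix_cons.mpr ⟨rfl, h1⟩,
          List.cons_prefix_cons.mpr ⟨rfl, h2⟩⟩
    · right; right
      exact ⟨[], c, c', h, by simp, by simp⟩

theorem snoc_prefix_inj {s l : List Bool} {a b : Bool} (h1 : s ++ [a] <+: l)
    (h2 : s ++ [b] <+: l) : a = b := by
  have h := (List.prefix_of_prefix_length_le h1 h2 (by simp)).eq_of_length (by simp)
  simpa using h

/-- the data of a tree with splitting nodes `t w` -/
structure Split (t : List Bool → List Bool) : Prop where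
  step : ∀ w i, t w ++ [i] <+: t (w ++ [i])

variable {t : List Bool → List Bool}

theorem Split.mono (ht : Split t) {w w' : List Bool} (h : w <+: w') : t w <+: t w' := by
  obtain ⟨r, rfl⟩ := h
  induction r using List.reverseRecOn with
  | nil => simp
  | append_singleton r i ih =>
    rw [← List.append_assoc]
    exact (ih.trans (List.prefix_append _ _)).trans (ht.step _ i)

theorem Split.length_step (ht : Split t) (w : List Bool) (i : Bool) :
    (t w).length < (t (w ++ [i])).length := by
  have := (ht.step w i).length_le
  simp at this
  omega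

theorem Split.strict (ht : Split t) {w w' : List Bool} (h : w <+: w') (hne : w ≠ w') :
    (t w).length < (t w').length := by
  obtain ⟨r, rfl⟩ := h
  rcases r with _ | ⟨i, r⟩
  · simp at hne
  · have h1 : w ++ [i] <+: w ++ i :: r := by simp
    exact lt_of_lt_of_le (ht.length_step w i) (ht.mono h1).length_le

theorem Split.inj (ht : Split t) {w w' : List Bool} (h : t w = t w') : w = w' := by
  rcases list_compare w w' with h1 | h1 | ⟨v, a, b, hab, h1, h2⟩
  · by_contra hne
    have := ht.strict h1 hne
    rw [h] at this
    exact lt_irrefl _ this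
  · by_contra hne
    have := ht.strict h1 (Ne.symm hne)
    rw [h] at this
    exact lt_irrefl _ this
  · exfalso
    apply hab
    have h3 := (ht.step v a).trans (ht.mono h1)
    have h4 := (ht.step v b).trans (ht.mono h2)
    rw [h] at h3
    exact snoc_prefix_inj h3 h4

/-- the tree -/
def Tr (t : List Bool → List Bool) : Set (List Bool) := {s | ∃ w, s <+: t w}

theorem Tr.down {s s' : List Bool} (h : s <+: s') (hs : s' ∈ Tr t) : s ∈ Tr t := by
  obtain ⟨w, hw⟩ := hs
  exact ⟨w, h.trans hw⟩

theorem node_mem (w : List Bool) : t w ∈ Tr t := ⟨w, List.prefix_refl _⟩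

theorem Split.node_snoc_mem (ht : Split t) (w : List Bool) (i : Bool) : t w ++ [i] ∈ Tr t :=
  ⟨w ++ [i], ht.step w i⟩

/-- two different legal moves are only possible at a splitting node -/
theorem Split.branch (ht : Split t) {s : List Bool} {a b : Bool} (hab : a ≠ b)
    (ha : s ++ [a] ∈ Tr t) (hb : s ++ [b] ∈ Tr t) : ∃ w, s = t w := by
  obtain ⟨w1, h1⟩ := ha
  obtain ⟨w2, h2⟩ := hb
  rcases list_compare w1 w2 with h | h | ⟨v, c, d, hcd, h3, h4⟩
  · exact absurd (snoc_prefix_inj (h1.trans (ht.mono h)) h2) hab
  · exact absurd (snoc_prefix_inj h1 (h2.trans (ht.mono h))) hab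
  · have h5 := (ht.step v c).trans (ht.mono h3)
    have h6 := (ht.step v d).trans (ht.mono h4)
    refine ⟨v, ?_⟩
    rcases lt_trichotomy s.length (t v).length with hlt | heq | hgt
    · exfalso
      have h7 : s ++ [a] <+: t v := List.prefix_of_prefix_length_le h1
        ((List.prefix_append _ _).trans h5) (by simp; omega)
      have h8 : s ++ [b] <+: t v := List.prefix_of_prefix_length_le h2
        ((List.prefix_append _ _).trans h6) (by simp; omega)
      exact hab (snoc_prefix_inj h7 h8)
    · exact (List.prefix_of_prefix_length_le ((List.prefix_append _ _).trans h1)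
        ((List.prefix_append _ _).trans h5) (le_of_eq heq)).eq_of_length heq
    · exfalso
      have h7 : t v ++ [c] <+: s := List.prefix_of_prefix_length_le h5
        ((List.prefix_append _ _).trans h1) (by simp; omega)
      have h8 : t v ++ [d] <+: s := List.prefix_of_prefix_length_le h6
        ((List.prefix_append _ _).trans h2) (by simp; omega)
      exact hcd (snoc_prefix_inj h7 h8)

/-- every node of the tree has a legal move -/
theorem Split.pruned (ht : Split t) {s : List Bool} (hs : s ∈ Tr t) : ∃ b, s ++ [b] ∈ Tr t := by
  obtain ⟨w, r, hr⟩ := hs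
  rcases r with _ | ⟨b, r⟩
  · refine ⟨true, ?_⟩
    rw [List.append_nil] at hr
    rw [hr]
    exact ht.node_snoc_mem w true
  · refine ⟨b, w, ?_⟩
    rw [← hr]
    simp

/-- the branch of the tree given by `w` -/
def br (t : List Bool → List Bool) (w : ℕ → Bool) : ℕ → Bool :=
  fun n => (t (pre w (n + 1))).getD n false

theorem Split.le_length (ht : Split t) (w : ℕ → Bool) (n : ℕ) : n ≤ (t (pre w n)).length := by
  induction n with
  | zero => exact Nat.zero_le _
  | succ n ih =>
    have := ht.length_step (pre w n) (w n)
    rw [← pre_succ] at this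
    omega

theorem Split.ext_br (ht : Split t) (w : ℕ → Bool) (n : ℕ) : Ext (t (pre w n)) (br t w) := by
  unfold Ext Helper56TD.pre
  apply List.ext_getElem
  · simp
  · intro i h1 h2
    simp only [List.getElem_map, List.getElem_range]
    unfold br
    have h3 : i < (t (Helper56TD.pre w (i + 1))).length := by
      have := ht.le_length w (i + 1)
      omega
    rw [List.getD_eq_getElem _ _ h3]
    rcases le_total n (i + 1) with h | h
    · exact (ht.mono (pre_prefix w h)).getElem h2 |>.symm
    · exact (ht.mono (pre_prefix w h)).getElem h3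

theorem Split.br_mem (ht : Split t) (w : ℕ → Bool) (n : ℕ) : pre (br t w) n ∈ Tr t := by
  refine ⟨pre w n, ?_⟩
  have h := ht.ext_br w n
  unfold Ext at h
  rw [← h]
  exact pre_prefix _ (ht.le_length w n)

/-- the value of a branch at the splitting nodes -/
theorem Split.br_node (ht : Split t) (w : ℕ → Bool) (n : ℕ) :
    br t w (t (pre w n)).length = w n := by
  have h1 := ht.step (pre w n) (w n)
  rw [← pre_succ] at h1
  have h2 := (ht.ext_br w (n + 1)).mono h1
  unfold Ext at h2
  rw [List.length_append, List.length_singleton, pre_succ] at h2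
  have := List.append_inj_right' h2 rfl
  simpa using this

theorem real_ext_unique {x y : ℕ → Bool} (h : ∀ n, ∃ s : List Bool, n ≤ s.length ∧ Ext s x ∧ Ext s y) :
    x = y := by
  funext i
  obtain ⟨s, hs, hx, hy⟩ := h (i + 1)
  unfold Ext at hx hy
  have : pre x s.length = pre y s.length := by rw [hx, hy]
  exact (pre_eq_iff x y _).mp this i (by omega)

/-- every branch of the tree is of the form `br t w` -/
theorem Split.exists_br (ht : Split t) {x : ℕ → Bool} (hx : ∀ n, pre x n ∈ Tr t) :
    ∃ w, x = br t w := by
  -- the words read off from `x`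
  let F : ℕ → List Bool := fun n => Nat.rec [] (fun _ v => v ++ [x (t v).length]) n
  have hF0 : F 0 = [] := rfl
  have hFs : ∀ n, F (n + 1) = F n ++ [x (t (F n)).length] := fun n => rfl
  have hFl : ∀ n, (F n).length = n := by
    intro n
    induction n with
    | zero => rfl
    | succ n ih => rw [hFs]; simp [ih]
  -- generic step
  have hstep : ∀ v : List Bool, (v = [] ∨ ∃ v' a, v = v' ++ [a] ∧ Ext (t v' ++ [a]) x) →
      Ext (t v) x := by
    intro v hv
    obtain ⟨w, hw⟩ := hx (t v).length
    have key : v <+: w → Ext (t v) x := by
      intro h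
      unfold Ext
      exact (List.prefix_of_prefix_length_le hw (ht.mono h) (by simp)).eq_of_length (by simp)
    apply key
    rcases hv with rfl | ⟨v', a, rfl, hva⟩
    · exact List.nil_prefix
    · -- `t v' ++ [a]` is a prefix of `pre x _`, hence of `t w`
      have h1 : t v' ++ [a] <+: t w := by
        refine List.IsPrefix.trans ?_ hw
        unfold Ext at hva
        rw [← hva]
        exact pre_prefix x (ht.step v' a).length_le
      rcases list_compare (v' ++ [a]) w with h | h | ⟨u, c, d, hcd, h2, h3⟩
      · exact h
      · -- `w` is a prefix of `v' ++ [a]`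
        by_cases hwe : w = v' ++ [a]
        · rw [hwe]
        · exfalso
          have h4 : w <+: v' := by
            rcases List.prefix_concat_iff.mp h with h5 | h5
            · exact absurd h5 hwe
            · exact h5
          have h5 := (ht.mono h4).length_le
          have h6 := h1.length_le
          simp at h6
          omega
      · exfalso
        have h4 := (ht.step u d).trans (ht.mono h3)
        rcases List.prefix_concat_iff.mp h2 with h5 | h5
        · -- `u = v'` and `c = a`
          have h6 := List.append_inj' h5 rfl
          obtain ⟨rfl, h7⟩ := h6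
          have h8 : c = a := by simpa using h7
          subst h8
          exact hcd (snoc_prefix_inj h1 h4)
        · have h6 := ((ht.step u c).trans (ht.mono h5)).trans
            ((List.prefix_append _ _).trans h1)
          exact hcd (snoc_prefix_inj h6 h4)
  have hFe : ∀ n, Ext (t (F n)) x := by
    intro n
    induction n with
    | zero => exact hstep _ (Or.inl rfl)
    | succ n ih =>
      apply hstep
      right
      refine ⟨F n, x (t (F n)).length, hFs n, ?_⟩
      unfold Ext at ih ⊢
      rw [List.length_append, List.length_singleton, pre_succ, ih]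
  let w : ℕ → Bool := fun n => x (t (F n)).length
  have hwF : ∀ n, pre w n = F n := by
    intro n
    induction n with
    | zero => rfl
    | succ n ih => rw [pre_succ, ih, hFs]
  refine ⟨w, real_ext_unique fun n => ⟨t (pre w n), ht.le_length w n, ?_, ht.ext_br w n⟩⟩
  rw [hwF]
  exact hFe n

/-- generating plays -/
theorem exists_run (f : List Bool → Bool) (s : List Bool) :
    ∃ x, Ext s x ∧ ∀ m, s.length ≤ m → x m = f (pre x m) := by
  obtain ⟨R, hR0, hRs⟩ : ∃ R : ℕ → List Bool, R 0 = s ∧ ∀ n, R (n + 1) = R n ++ [f (R n)] :=
    ⟨fun n => Nat.rec s (fun _ l => l ++ [f l]) n, rfl, fun n => rfl⟩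
  have hRl : ∀ n, (R n).length = s.length + n := by
    intro n
    induction n with
    | zero => rw [hR0]; rfl
    | succ n ih => rw [hRs]; simp [ih]; omega
  have hRm : ∀ {m n}, m ≤ n → R m <+: R n := by
    intro m n h
    induction h with
    | refl => exact List.prefix_refl _
    | step _ ih => exact ih.trans (by rw [Nat.succ_eq_add_one, hRs]; exact List.prefix_append _ _)
  let x : ℕ → Bool := fun n => (R (n + 1)).getD n false
  have hx : ∀ n, Ext (R n) x := by
    intro n
    unfold Ext pre
    apply List.ext_getElem
    · simp
    · intro i h1 h2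
      simp only [List.getElem_map, List.getElem_range]
      have h3 : i < (R (i + 1)).length := by rw [hRl]; omega
      change (R (i + 1)).getD i false = _
      rw [List.getD_eq_getElem _ _ h3]
      rcases le_total n (i + 1) with h | h
      · exact ((hRm h).getElem h2).symm
      · exact (hRm h).getElem h3
  refine ⟨x, hR0 ▸ hx 0, fun m hm => ?_⟩
  obtain ⟨k, rfl⟩ := Nat.exists_eq_add_of_le hm
  have h1 := hx (k + 1)
  have h2 := hx k
  unfold Ext at h1 h2
  rw [hRl] at h1 h2
  rw [← Nat.add_assoc, pre_succ, hRs, h2] at h1
  have := List.append_inj_right' h1 rfl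
  rw [h2]
  simpa using this

end Pool.Agent.Helper56TD
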