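import Mathlib
import Pool.Agent.Helper56_TD.Game

set_option autoImplicit false

namespace Pool.Agent.Helper56TD

/-! ### Turing reducibility facts -/

theorem TLE.refl (x : ℕ → Bool) : TLE x x := TuringReducible.refl _

theorem TLE.trans {x y z : ℕ → Bool} (h : TLE x y) (h' : TLE y z) : TLE x z :=
  TuringReducible.trans h h'

/-- a real which is read off along an arithmetic progression is computable -/
theorem TLE_of_progression {x z : ℕ → Bool} (n₀ : ℕ) (h : ∀ k, x (n₀ + 2 * k) = z k) :
    TLE z x := by
  unfold TLE TuringReducible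
  rw [RecursiveIn.iff_nat]
  have hp : Nat.Primrec fun k => n₀ + 2 * k := by
    rw [← Primrec.nat_iff]
    exact Primrec.nat_add.comp (Primrec.const n₀) (Primrec.nat_mul.comp (Primrec.const 2) Primrec.id)
  have h1 : Nat.RecursiveIn {chi x} (chi x) := Nat.RecursiveIn.oracle _ rfl
  have h2 : Nat.RecursiveIn {chi x} fun k => (Part.some (n₀ + 2 * k) : Part ℕ) :=
    hp.recursiveIn
  refine (Nat.RecursiveIn.comp h1 h2).of_eq fun k => ?_
  have h3 : (Part.some (n₀ + 2 * k)).bind (fun n => chi x n) = chi x (n₀ + 2 * k) :=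
    Part.bind_some _ _
  refine Eq.trans h3 ?_
  unfold chi
  rw [h k]

theorem not_TLE {a b : ℕ → Bool}
    (h : ∀ k, ∃ n, k ≤ n ∧ ∃ v v' : List Bool, v.length = n + 1 ∧ v'.length = n + 1 ∧ v ≠ v' ∧
      Ext (nd v) b ∧ Ext (nd v') a) : ¬ TLE a b := by
  intro hle
  unfold TLE TuringReducible at hle
  rw [RecursiveIn.iff_nat] at hle
  obtain ⟨c, hc⟩ := exists_code hle
  obtain ⟨k, rfl⟩ := code_surj c
  obtain ⟨n, hkn, v, v', hv, hv', hne, hb, ha⟩ := h k
  exact nd_good n k hkn v v' hv hv' hne b a hb ha hc

/-! ### The tree -/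

/-- splitting nodes of the tree used for the game -/
noncomputable def tt (w : List Bool) : List Bool := nd (false :: w)

theorem tt_split : Split tt := ⟨fun w i => nd_step (false :: w) i⟩

theorem nd_split : Split nd := ⟨nd_step⟩

theorem tt_parity (w : List Bool) : (tt w).length % 2 = w.length % 2 := by
  unfold tt
  rw [nd_parity, List.length_cons]
  omega

/-- the real used to punish player II -/
noncomputable def zz : ℕ → Bool := br nd fun _ => true

theorem pre_true_ne (n : ℕ) (v : List Bool) : pre (fun _ => true) (n + 1) ≠ false :: v := by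
  intro h
  have := congrArg List.head? h
  simp [pre, List.range_succ_eq_map] at this

theorem zz_not_le (w : ℕ → Bool) : ¬ TLE zz (br tt w) := by
  apply not_TLE
  intro k
  exact ⟨k, le_rfl, false :: pre w k, pre (fun _ => true) (k + 1), by simp, by simp,
    (pre_true_ne _ _).symm, tt_split.ext_br w k, nd_split.ext_br _ (k + 1)⟩

theorem br_incomparable {w w' : ℕ → Bool} (hne : w ≠ w') : ¬ TLE (br tt w) (br tt w') := by
  apply not_TLE
  intro k
  obtain ⟨i, hi⟩ : ∃ i, w i ≠ w' i := by
    by_contra h
    push Not at h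
    exact hne (funext h)
  refine ⟨max k (i + 1), le_max_left _ _, false :: pre w' (max k (i + 1)),
    false :: pre w (max k (i + 1)), by simp, by simp, ?_, tt_split.ext_br w' _,
    tt_split.ext_br w _⟩
  intro h
  have h1 := List.cons_injective h
  exact hi ((pre_eq_iff w' w _).mp h1 i (lt_of_lt_of_le (Nat.lt_succ_self i)
    (le_max_right _ _))).symm

theorem br_injective : Function.Injective (br tt) := by
  intro w w' h
  by_contra hne
  apply br_incomparable hne
  rw [h]
  exact TLE.refl _

/-! ### Topology -/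

theorem isOpen_pre (m : ℕ) (S : Set (List Bool)) : IsOpen {x : ℕ → Bool | pre x m ∈ S} := by
  rw [isOpen_iff_forall_mem_open]
  intro x hx
  refine ⟨Set.pi (Finset.range m : Set ℕ) fun i => {x i}, ?_, ?_, ?_⟩
  · intro y hy
    have : pre y m = pre x m := by
      rw [pre_eq_iff]
      intro i hi
      exact hy i (by simpa using hi)
    change pre y m ∈ S
    rw [this]
    exact hx
  · exact isOpen_set_pi (Finset.finite_toSet _) fun i _ => isOpen_discrete _
  · intro i _
    rfl

theorem isClosed_pre (m : ℕ) (S : Set (List Bool)) : IsClosed {x : ℕ → Bool | pre x m ∈ S} := by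
  rw [← isOpen_compl_iff]
  exact isOpen_pre m Sᶜ

theorem continuous_br (t : List Bool → List Bool) : Continuous (br t) := by
  apply continuous_pi
  intro n
  rw [continuous_def]
  intro V _
  exact isOpen_pre (n + 1) {l | (t l).getD n false ∈ V}

/-- player I is never the first to leave the tree -/
def KK : Set (ℕ → Bool) := {x | ∀ n, pre x (2 * n) ∈ Tr tt → pre x (2 * n + 1) ∈ Tr tt}

theorem isClosed_KK : IsClosed KK := by
  have : KK = ⋂ n : ℕ, ({x | pre x (2 * n) ∈ (Tr tt)ᶜ} ∪ {x | pre x (2 * n + 1) ∈ Tr tt}) := by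
    ext x
    simp only [KK, Set.mem_iInter, Set.mem_union, Set.mem_compl_iff, Set.mem_ofPred_eq]
    exact forall_congr' fun n => imp_iff_not_or
  rw [this]
  exact isClosed_iInter fun n => (isClosed_pre _ _).union (isClosed_pre _ _)

/-! ### Strategies that follow the tree -/

open Classical in
/-- follow the tree; at splitting nodes use `σ`; off the tree use `off` -/
noncomputable def follow (σ off : List Bool → Bool) (s : List Bool) : Bool :=
  if h : ∃ w, s = tt w then σ h.choose
  else if s ++ [true] ∈ Tr tt then true else if s ∈ Tr tt then false else off s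

theorem follow_node (σ off : List Bool → Bool) (w : List Bool) : follow σ off (tt w) = σ w := by
  have h : ∃ w', tt w = tt w' := ⟨w, rfl⟩
  unfold follow
  rw [dif_pos h]
  congr 1
  exact (tt_split.inj h.choose_spec).symm

theorem follow_legal (σ off : List Bool → Bool) {s : List Bool} (hs : s ∈ Tr tt) :
    s ++ [follow σ off s] ∈ Tr tt := by
  by_cases h : ∃ w, s = tt w
  · obtain ⟨w, rfl⟩ := h
    exact tt_split.node_snoc_mem w _
  · unfold follow
    rw [dif_neg h]
    by_cases h1 : s ++ [true] ∈ Tr tt
    · rw [if_pos h1]; exact h1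
    · rw [if_neg h1, if_pos hs]
      obtain ⟨b, hb⟩ := tt_split.pruned hs
      cases b
      · exact hb
      · exact absurd hb h1

theorem follow_off (σ off : List Bool → Bool) {s : List Bool} (hs : s ∉ Tr tt) :
    follow σ off s = off s := by
  unfold follow
  rw [dif_neg, if_neg, if_neg hs]
  · exact fun h => hs (Tr.down (List.prefix_append _ _) h)
  · rintro ⟨w, rfl⟩
    exact hs (node_mem w)

theorem pre_take (x : ℕ → Bool) {m n : ℕ} (h : m ≤ n) : (pre x n).take m = pre x m := by
  have := pre_prefix x h
  have h2 := List.prefix_iff_eq_take.mp this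
  rw [pre_length] at h2
  exact h2.symm

/-- length of the shortest initial segment of `s` outside the tree -/
noncomputable def exit (s : List Bool) : ℕ := sInf {n | s.take n ∉ Tr tt}

/-- off the tree player I plays the bits of `zz` -/
noncomputable def punish (s : List Bool) : Bool := zz ((s.length - exit s) / 2)

/-- If player I plays according to `punish` whenever the position is off the tree, and the tree
is left, then the play computes `zz`. -/
theorem zz_le_of_punish {x : ℕ → Bool} (hex : ∃ m, pre x m ∉ Tr tt)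
    (hx : ∀ n, pre x (2 * n) ∉ Tr tt → x (2 * n) = punish (pre x (2 * n))) : TLE zz x := by
  classical
  set m₁ := Nat.find hex with hm₁
  have h1 : pre x m₁ ∉ Tr tt := Nat.find_spec hex
  have h2 : ∀ n < m₁, pre x n ∈ Tr tt := by
    intro n hn
    have := Nat.find_min hex hn
    push Not at this
    exact this
  have hexit : ∀ m, m₁ ≤ m → exit (pre x m) = m₁ := by
    intro m hm
    unfold exit
    apply le_antisymm
    · apply Nat.sInf_le
      change (pre x m).take m₁ ∉ Tr tt
      rw [pre_take x hm]
      exact h1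
    · apply le_csInf
      · refine ⟨m₁, ?_⟩
        change (pre x m).take m₁ ∉ Tr tt
        rw [pre_take x hm]
        exact h1
      · intro n hn
        by_contra hlt
        push Not at hlt
        apply hn
        rw [pre_take x (le_of_lt (lt_of_lt_of_le hlt hm))]
        exact h2 n hlt
  have hoff : ∀ m, m₁ ≤ m → pre x m ∉ Tr tt := fun m hm h =>
    h1 (Tr.down (pre_prefix x hm) h)
  -- the first even position at or after the exit
  have hkey : ∀ q, m₁ ≤ 2 * q → 2 * q ≤ m₁ + 1 → TLE zz x := by
    intro q hq hq'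
    apply TLE_of_progression (2 * q)
    intro k
    have h3 : 2 * q + 2 * k = 2 * (q + k) := by ring
    rw [h3, hx (q + k) (hoff _ (by omega))]
    unfold punish
    rw [hexit _ (by omega), pre_length]
    congr 1
    omega
  rcases Nat.even_or_odd m₁ with ⟨q, hq⟩ | ⟨q, hq⟩
  · exact hkey q (by omega) (by omega)
  · exact hkey (q + 1) (by omega) (by omega)

/-- the union of cones attached to `A` -/
def BB (A : Set (ℕ → Bool)) : Set (ℕ → Bool) := Cones (insert zz (br tt '' A))

theorem zz_mem_BB {A : Set (ℕ → Bool)} {x : ℕ → Bool} (h : TLE zz x) : x ∈ BB A :=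
  ⟨zz, Set.mem_insert _ _, h⟩

theorem br_mem_BB {A : Set (ℕ → Bool)} {w : ℕ → Bool} : br tt w ∈ BB A ↔ w ∈ A := by
  constructor
  · rintro ⟨b, hb, h⟩
    rcases Set.mem_insert_iff.mp hb with rfl | ⟨w', hw', rfl⟩
    · exact absurd h (zz_not_le w)
    · by_contra hw
      refine br_incomparable (w := w') (w' := w) ?_ h
      rintro rfl
      exact hw hw'
  · intro h
    exact ⟨br tt w, Set.mem_insert_of_mem _ ⟨w, h, rfl⟩, TLE.refl _⟩

theorem br_mem_KK (w : ℕ → Bool) : br tt w ∈ KK := fun n _ => tt_split.br_mem w (2 * n + 1)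

/-- If both players never leave the tree first, the play is a branch. -/
theorem exists_br_of_legal {x : ℕ → Bool} (h : ∀ n, pre x n ∈ Tr tt → pre x (n + 1) ∈ Tr tt) :
    ∃ w, x = br tt w := by
  apply tt_split.exists_br
  intro n
  induction n with
  | zero => exact Tr.down (s' := tt []) List.nil_prefix (node_mem _)
  | succ n ih => exact h n ih

theorem length_tt_even {w : ℕ → Bool} {n : ℕ} :
    (tt (pre w (2 * n))).length % 2 = 0 := by
  rw [tt_parity, pre_length]; omega

theorem length_tt_odd {w : ℕ → Bool} {n : ℕ} :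
    (tt (pre w (2 * n + 1))).length % 2 = 1 := by
  rw [tt_parity, pre_length]; omega

theorem winsI_mp {A : Set (ℕ → Bool)} (h : WinsI A) : WinsI (BB A ∩ KK) := by
  obtain ⟨σ, hσ⟩ := h
  refine ⟨follow σ punish, fun x hx => ?_⟩
  have hK : x ∈ KK := by
    intro n hn
    rw [pre_succ, hx n]
    exact follow_legal _ _ hn
  refine ⟨?_, hK⟩
  by_cases hT : ∀ n, pre x n ∈ Tr tt
  · obtain ⟨w, rfl⟩ := tt_split.exists_br hT
    rw [br_mem_BB]
    apply hσ
    intro n
    rw [← tt_split.br_node w (2 * n)]
    have h1 := @length_tt_even w n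
    obtain ⟨q, hq⟩ : ∃ q, (tt (pre w (2 * n))).length = 2 * q :=
      ⟨(tt (pre w (2 * n))).length / 2, by omega⟩
    have h2 := hx q
    rw [← hq] at h2
    rw [h2]
    have h3 : pre (br tt w) (tt (pre w (2 * n))).length = tt (pre w (2 * n)) :=
      tt_split.ext_br w (2 * n)
    rw [h3, follow_node]
  · push Not at hT
    apply zz_mem_BB
    apply zz_le_of_punish hT
    intro n hn
    rw [hx n, follow_off _ _ hn]

theorem winsII_mp {A : Set (ℕ → Bool)} (h : WinsII A) : WinsII (BB A ∩ KK) := by
  obtain ⟨τ, hτ⟩ := h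
  refine ⟨follow τ fun _ => false, fun x hx => ?_⟩
  rintro ⟨hB, hK⟩
  obtain ⟨w, rfl⟩ : ∃ w, x = br tt w := by
    apply exists_br_of_legal
    intro n hn
    rcases Nat.even_or_odd n with ⟨q, hq⟩ | ⟨q, hq⟩
    · have h1 : n = 2 * q := by omega
      subst h1
      exact hK q hn
    · subst hq
      rw [pre_succ, hx q]
      exact follow_legal _ _ hn
  rw [br_mem_BB] at hB
  apply hτ w _ hB
  intro n
  rw [← tt_split.br_node w (2 * n + 1)]
  have h1 := @length_tt_odd w n
  obtain ⟨q, hq⟩ : ∃ q, (tt (pre w (2 * n + 1))).length = 2 * q + 1 :=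
    ⟨(tt (pre w (2 * n + 1))).length / 2, by omega⟩
  have h2 := hx q
  rw [← hq] at h2
  rw [h2]
  have h3 : pre (br tt w) (tt (pre w (2 * n + 1))).length = tt (pre w (2 * n + 1)) :=
    tt_split.ext_br w (2 * n + 1)
  rw [h3, follow_node]

/-- In a branch `br tt w`, at a position where the move `b` different from the next move of the
branch is legal, the position is a splitting node `tt (pre w n)`. -/
theorem node_of_legal {w : ℕ → Bool} {m : ℕ} {b : Bool} (hb : b ≠ br tt w m)
    (h : pre (br tt w) m ++ [b] ∈ Tr tt) : ∃ n, pre (br tt w) m = tt (pre w n) := by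
  have h1 : pre (br tt w) m ++ [br tt w m] ∈ Tr tt := by
    rw [← pre_succ]; exact tt_split.br_mem w (m + 1)
  obtain ⟨v, hv⟩ := tt_split.branch hb h h1
  refine ⟨v.length, ?_⟩
  rw [hv]
  congr 1
  -- `tt v` is an initial segment of the branch
  have h2 : Ext (tt v) (br tt w) := by rw [← hv]; exact Ext.pre _ _
  have h3 := tt_split.ext_br w v.length
  rcases list_compare v (pre w v.length) with h4 | h4 | ⟨u, c, d, hcd, h4, h5⟩
  · exact h4.eq_of_length (by simp)
  · exact (h4.eq_of_length (by simp)).symm
  · exfalso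
    apply hcd
    have h6 := (tt_split.step u c).trans (tt_split.mono h4)
    have h7 := (tt_split.step u d).trans (tt_split.mono h5)
    have h8 := Ext.mono h6 h2
    have h9 := Ext.mono h7 h3
    unfold Ext at h8 h9
    rw [List.length_append, List.length_singleton] at h8 h9
    rw [h8] at h9
    simpa using h9

theorem winsI_mpr {A : Set (ℕ → Bool)} (h : WinsI (BB A ∩ KK)) : WinsI A := by
  obtain ⟨σ, hσ⟩ := h
  refine ⟨fun v => σ (tt v), fun w hw => ?_⟩
  rw [← br_mem_BB]
  refine (hσ (br tt w) ?_).1
  by_contra hcon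
  push Not at hcon
  classical
  -- first position where the branch deviates from `σ`
  set q := Nat.find hcon with hq
  have hq1 : br tt w (2 * q) ≠ σ (pre (br tt w) (2 * q)) := Nat.find_spec hcon
  have hq2 : ∀ n < q, br tt w (2 * n) = σ (pre (br tt w) (2 * n)) := by
    intro n hn
    have := Nat.find_min hcon hn
    push Not at this
    exact this
  set s := pre (br tt w) (2 * q) with hs
  -- a play that follows `σ` from `s` on
  obtain ⟨x, hxs, hx⟩ := exists_run (fun l => σ l) s
  have hsl : s.length = 2 * q := by rw [hs, pre_length]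
  have hxw : ∀ i < 2 * q, x i = br tt w i := by
    have h1 : pre x (2 * q) = pre (br tt w) (2 * q) := by
      unfold Ext at hxs
      rw [hsl] at hxs
      exact hxs
    exact (pre_eq_iff _ _ _).mp h1
  have hxσ : ∀ n, x (2 * n) = σ (pre x (2 * n)) := by
    intro n
    by_cases hn : n < q
    · rw [hxw (2 * n) (by omega), hq2 n hn]
      congr 1
      rw [pre_eq_iff]
      intro i hi
      exact (hxw i (by omega)).symm
    · exact hx (2 * n) (by omega)
  have hxK := (hσ x hxσ).2
  have hps : pre x (2 * q) = s := by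
    unfold Ext at hxs
    rw [hsl] at hxs
    exact hxs
  have h1 := hxK q (by rw [hps]; exact tt_split.br_mem w _)
  rw [pre_succ, hxσ q, hps] at h1
  obtain ⟨n, hn⟩ := node_of_legal (Ne.symm hq1) h1
  -- the position is a splitting node of even length
  have h2 : (tt (pre w n)).length = 2 * q := by rw [← hn, pre_length]
  have h3 := tt_parity (pre w n)
  rw [pre_length, h2] at h3
  obtain ⟨k, rfl⟩ : ∃ k, n = 2 * k := ⟨n / 2, by omega⟩
  apply hq1
  have h4 := tt_split.br_node w (2 * k)
  rw [h2] at h4
  have h5 : s = tt (pre w (2 * k)) := hs.trans hn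
  rw [h4, hw k, h5]

theorem winsII_mpr {A : Set (ℕ → Bool)} (h : WinsII (BB A ∩ KK)) : WinsII A := by
  obtain ⟨τ, hτ⟩ := h
  refine ⟨fun v => τ (tt v), fun w hw => ?_⟩
  rw [← br_mem_BB]
  intro hwB
  refine hτ (br tt w) ?_ ⟨hwB, br_mem_KK w⟩
  by_contra hcon
  push Not at hcon
  classical
  set q := Nat.find hcon with hq
  have hq1 : br tt w (2 * q + 1) ≠ τ (pre (br tt w) (2 * q + 1)) := Nat.find_spec hcon
  have hq2 : ∀ n < q, br tt w (2 * n + 1) = τ (pre (br tt w) (2 * n + 1)) := by
    intro n hn
    have := Nat.find_min hcon hn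
    push Not at this
    exact this
  set s := pre (br tt w) (2 * q + 1) with hs
  by_cases hleg : s ++ [τ s] ∈ Tr tt
  · obtain ⟨n, hn⟩ := node_of_legal (Ne.symm hq1) hleg
    have h2 : (tt (pre w n)).length = 2 * q + 1 := by rw [← hn, pre_length]
    have h3 := tt_parity (pre w n)
    rw [pre_length, h2] at h3
    obtain ⟨k, rfl⟩ : ∃ k, n = 2 * k + 1 := ⟨n / 2, by omega⟩
    apply hq1
    have h4 := tt_split.br_node w (2 * k + 1)
    rw [h2] at h4
    have h5 : s = tt (pre w (2 * k + 1)) := hs.trans hn
    rw [h4, hw k, h5]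
  · -- player II leaves the tree; player I punishes
    obtain ⟨x, hxs, hx⟩ := exists_run (fun l => if l.length % 2 = 0 then punish l else τ l) s
    have hsl : s.length = 2 * q + 1 := by rw [hs, pre_length]
    have hps : pre x (2 * q + 1) = s := by
      unfold Ext at hxs
      rw [hsl] at hxs
      exact hxs
    have hxw : ∀ i < 2 * q + 1, x i = br tt w i := (pre_eq_iff _ _ _).mp hps
    have hxodd : ∀ n, q ≤ n → x (2 * n + 1) = τ (pre x (2 * n + 1)) := by
      intro n hn
      have h1 := hx (2 * n + 1) (by omega)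
      rw [if_neg (by rw [pre_length]; omega)] at h1
      exact h1
    have hxeven : ∀ n, q + 1 ≤ n → x (2 * n) = punish (pre x (2 * n)) := by
      intro n hn
      have h1 := hx (2 * n) (by omega)
      rw [if_pos (by rw [pre_length]; omega)] at h1
      exact h1
    have hxτ : ∀ n, x (2 * n + 1) = τ (pre x (2 * n + 1)) := by
      intro n
      by_cases hn : n < q
      · rw [hxw (2 * n + 1) (by omega), hq2 n hn]
        congr 1
        rw [pre_eq_iff]
        intro i hi
        exact (hxw i (by omega)).symm
      · exact hxodd n (by omega)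
    have hin : ∀ n, n ≤ 2 * q + 1 → pre x n ∈ Tr tt := by
      intro n hn
      have h1 : pre x n = pre (br tt w) n := by
        rw [pre_eq_iff]
        intro i hi
        exact hxw i (by omega)
      rw [h1]
      exact tt_split.br_mem w n
    have hout : ∀ n, 2 * q + 2 ≤ n → pre x n ∉ Tr tt := by
      intro n hn hmem
      have h1 := Tr.down (pre_prefix x hn) hmem
      rw [show 2 * q + 2 = (2 * q + 1) + 1 by ring, pre_succ, hxτ q, hps] at h1
      exact hleg h1
    have hxK : x ∈ KK := by
      intro n hn
      by_cases h1 : n ≤ q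
      · exact hin _ (by omega)
      · exact absurd hn (hout _ (by omega))
    have hxB : x ∈ BB A := by
      apply zz_mem_BB
      apply zz_le_of_punish ⟨2 * q + 2, hout _ le_rfl⟩
      intro n hn
      apply hxeven
      by_contra h1
      exact hn (hin _ (by omega))
    exact hτ x hxτ ⟨hxB, hxK⟩

end Pool.Agent.Helper56TD
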