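import Mathlib
import Pool.Agent.Helper56_TD.Defs
import Pool.Agent.Helper56_TD.Main

/-!
How far Turing determinacy is from `AD`.

There are one closed set `K`, one real `z` and one continuous injection `h` such that every game
`G(A)` on Cantor space is equivalent, for both players, to the game whose payoff set is the
intersection of `K` with a union of Turing cones, namely the cones above `z` and above the reals
`h w`, `w ∈ A`.  The set `K` says that player I is never the first to leave a certain perfect tree,
whose branches `h w` are pairwise Turing incomparable and do not compute `z`.

Unions of cones are Turing invariant (even upward closed), and as payoff sets they are trivially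
determined.  The translation `A ↦ (union of cones) ∩ K` is explicit and uses no choice, so over
`ZF` the axiom `AD` is equivalent to the determinacy of all sets `B ∩ K` with `B` Turing invariant
(or just a union of cones) and `K` closed.
-/

set_option autoImplicit false

open Pool.Agent.Helper56TD

/-- Every game is equivalent to a game with payoff (union of Turing cones) ∩ (fixed closed set). -/
theorem Pool.Agent.Results.MP_917879_lc.ConesClosedRules.result :
    ∃ (K : Set (ℕ → Bool)) (z : ℕ → Bool) (h : (ℕ → Bool) → (ℕ → Bool)),
      IsClosed K ∧ Continuous h ∧ Function.Injective h ∧
      ∀ A : Set (ℕ → Bool),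
        (WinsI A ↔ WinsI (Cones (insert z (h '' A)) ∩ K)) ∧
        (WinsII A ↔ WinsII (Cones (insert z (h '' A)) ∩ K)) :=
  ⟨KK, zz, br tt, isClosed_KK, continuous_br tt, br_injective,
    fun _ => ⟨⟨winsI_mp, winsI_mpr⟩, ⟨winsII_mp, winsII_mpr⟩⟩⟩
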